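import Pool.Agent.helper69.LN.Spec

/-! Row QCR of project LN (MP_069684_lc): the two-sided theorem for quasi-polynomial size. -/

set_option autoImplicit false

namespace Pool.Agent.LN

open Finset Pool.Agent.helper38.Neg Pool.Agent.helper55.NT

theorem QCR_add (a b : ℕ) : 2 ^ a + 2 ^ b ≤ 2 ^ (a + b + 1) := by
  have h1 : 2 ^ a ≤ 2 ^ (a + b) := Nat.pow_le_pow_right (by norm_num) (by omega)
  have h2 : 2 ^ b ≤ 2 ^ (a + b) := Nat.pow_le_pow_right (by norm_num) (by omega)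
  have h3 : 2 ^ (a + b + 1) = 2 * 2 ^ (a + b) := by ring
  omega

theorem QCR_lg (n c : ℕ) : lg (n + c + n) ≤ (c + 3) * lg n := by
  have h0 := lg_pos n
  have h1 := lt_two_pow_lg n
  have h2 : c < 2 ^ c := Nat.lt_two_pow_self
  have h3 : n + c + n + 2 < 2 ^ (lg n + c + 3) := by
    have h4 := QCR_add (lg n + 2) c
    have h5 : 2 ^ (lg n + 2) = 2 * 2 ^ (lg n + 1) := by ring
    have h6 : lg n + 2 + c + 1 = lg n + c + 3 := by ring
    rw [h6] at h4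
    omega
  have h7 : lg (n + c + n) < lg n + c + 3 := by
    unfold lg at h3 ⊢
    exact Nat.log_lt_of_lt_pow (by omega) h3
  nlinarith

theorem QCR (h1 : ORC_stmt) (h2 : PNP_stmt) (h3 : PCI_stmt) (h4 : PMO_stmt) (h5 : ARI_stmt)
    (h6 : GRO_stmt) (h7 : HNP_stmt) : QCR_stmt := by
  intro u
  constructor
  · intro h
    obtain ⟨c, hc⟩ := h6 u (h HC h7.1 (fun n x y hxy _ hx => h7.2 n hxy hx))
    refine ⟨⟨c, hc⟩, fun A hA => ?_⟩
    obtain ⟨c₀, hc₀⟩ := h5.2 c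
    have hu0 := hc₀ u hc
    obtain ⟨k, hk⟩ := h (Pd c₀ A) (h2 c₀ A hA) (h4 c₀ u A hu0)
    refine ⟨k * (c₀ + 3) ^ k + 2 + k, fun n => ?_⟩
    obtain ⟨s, hs, C, o, hC, -⟩ := hk (n + c₀ + n)
    obtain ⟨C', o', hC'⟩ := h3 c₀ n s A C o hC
    refine ⟨2 + s, ?_, C', o', hC'⟩
    have e1 : k * lg (n + c₀ + n) ^ k ≤ k * (c₀ + 3) ^ k * lg n ^ k := by
      rw [mul_assoc, ← mul_pow]
      exact Nat.mul_le_mul_left _ (Nat.pow_le_pow_left (QCR_lg n c₀) k)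
    have e2 : lg n ^ k ≤ lg n ^ (k * (c₀ + 3) ^ k + 2 + k) := lg_pow_le n (by omega)
    have e3 : 1 ≤ lg n ^ (k * (c₀ + 3) ^ k + 2 + k) := Nat.one_le_pow _ _ (lg_pos n)
    calc 2 + s ≤ 2 ^ 1 + 2 ^ (k * lg (n + c₀ + n) ^ k) := by omega
      _ ≤ 2 ^ (1 + k * lg (n + c₀ + n) ^ k + 1) := QCR_add _ _
      _ ≤ _ := by
        refine Nat.pow_le_pow_right (by norm_num) ?_
        have e4 : k * (c₀ + 3) ^ k * lg n ^ k ≤
            k * (c₀ + 3) ^ k * lg n ^ (k * (c₀ + 3) ^ k + 2 + k) := Nat.mul_le_mul_left _ e2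
        have e5 : (k * (c₀ + 3) ^ k + 2 + k) * lg n ^ (k * (c₀ + 3) ^ k + 2 + k) =
            k * (c₀ + 3) ^ k * lg n ^ (k * (c₀ + 3) ^ k + 2 + k) +
            2 * lg n ^ (k * (c₀ + 3) ^ k + 2 + k) + k * lg n ^ (k * (c₀ + 3) ^ k + 2 + k) := by ring
        rw [e5]
        omega
  · rintro ⟨⟨c, hc⟩, h⟩ A hA hm
    obtain ⟨k, hk⟩ := h A hA
    refine ⟨2 * c + k + 7, fun n => ?_⟩
    obtain ⟨s, hs, C, o, hC⟩ := hk n
    have hag : ∀ x y : Fin n → Bool, AgreeFrom (min (u n) n) x y → AgreeFrom (u n) x y := by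
      intro x y hxy i hi
      exact hxy i (by omega)
    have hag' : ∀ x y : Fin n → Bool, AgreeFrom (u n) x y → AgreeFrom (min (u n) n) x y := by
      intro x y hxy i hi
      have := i.isLt
      exact hxy i (by omega)
    obtain ⟨s', hs', C', o', hC', hF⟩ := h1 n s (min (u n) n) C o (A n) hC
      (fun x y hxy ha hx => hm n x y hxy (hag x y ha) hx)
    refine ⟨s', ?_, C', o', hC', fun x y ha => hF x y (hag' x y ha)⟩
    have hu := hc n
    obtain ⟨v, hv⟩ : ∃ v, v = min (u n) n := ⟨_, rfl⟩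
    rw [← hv] at hs' hu
    have e1 : v < 2 ^ v := Nat.lt_two_pow_self
    have e2 : 2 ^ v ≤ 2 ^ (c * lg n ^ c) := Nat.pow_le_pow_right (by norm_num) hu
    have e3 : s + v + 8 ≤ 2 ^ (k * lg n ^ k + c * lg n ^ c + 5) := by
      have e4 := QCR_add (k * lg n ^ k) (c * lg n ^ c)
      have e5 := QCR_add (k * lg n ^ k + c * lg n ^ c + 1) 3
      have e6 : k * lg n ^ k + c * lg n ^ c + 1 + 3 + 1 = k * lg n ^ k + c * lg n ^ c + 5 := by ring
      rw [e6] at e5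
      omega
    have e7 : s' ≤ 2 ^ (c * lg n ^ c + (k * lg n ^ k + c * lg n ^ c + 5)) + 2 ^ 1 := by
      rw [pow_add 2 (c * lg n ^ c)]
      have := Nat.mul_le_mul e2 e3
      omega
    refine e7.trans ((QCR_add _ _).trans (Nat.pow_le_pow_right (by norm_num) ?_))
    have f1 : lg n ^ k ≤ lg n ^ (2 * c + k + 7) := lg_pow_le n (by omega)
    have f2 : lg n ^ c ≤ lg n ^ (2 * c + k + 7) := lg_pow_le n (by omega)
    have f3 : 1 ≤ lg n ^ (2 * c + k + 7) := Nat.one_le_pow _ _ (lg_pos n)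
    have f4 : c * lg n ^ c ≤ c * lg n ^ (2 * c + k + 7) := Nat.mul_le_mul_left _ f2
    have f5 : k * lg n ^ k ≤ k * lg n ^ (2 * c + k + 7) := Nat.mul_le_mul_left _ f1
    have f6 : (2 * c + k + 7) * lg n ^ (2 * c + k + 7) = c * lg n ^ (2 * c + k + 7) +
        c * lg n ^ (2 * c + k + 7) + k * lg n ^ (2 * c + k + 7) + 7 * lg n ^ (2 * c + k + 7) := by
      ring
    rw [f6]
    omega

end Pool.Agent.LN
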