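import Pool.Agent.helper69.LN.TSpec

/-! Row TQC of project LN (MP_069684_lc), part T: quasi-polynomial size. -/

set_option autoImplicit false

namespace Pool.Agent.LN

open Finset Pool.Agent.helper38.Neg Pool.Agent.helper55.NT

theorem TQC_mono {n : ℕ} (u : ℕ) {f : (Fin n → Bool) → Prop} (h : Monotone f) : MonoIn u f :=
  fun _ _ hxy _ hx => h hxy hx

theorem TQC_dbl (u r : ℕ → ℕ)
    (h : ∀ A, InNPPoly A → (∀ n, MonoIn (u n) (A n)) → QuasiFew u r A) (A : Lang)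
    (hA : InNPPoly A) : InQuasi A := by
  obtain ⟨k, hk⟩ := h (dbl A) (dbl_inNPPoly A hA) (fun n => TQC_mono (u n) (dbl_mono A n))
  refine ⟨k * 2 ^ k + k + 4, fun n => ?_⟩
  obtain ⟨s, hs, C, o, hC, -⟩ := hk (n + n)
  obtain ⟨s', hs', C', o', h1⟩ := dbl_circuit A n s C o hC
  refine ⟨s', hs'.trans ?_, C', o', h1⟩
  have h2 : s ≤ 2 ^ (k * lg (n + n) ^ k) := hs
  have h3 : k * lg (n + n) ^ k ≤ k * 2 ^ k * lg n ^ k := by
    rw [mul_assoc, ← mul_pow]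
    exact Nat.mul_le_mul_left _ (Nat.pow_le_pow_left (lg_two n) _)
  have h4 : 2 * s ≤ 2 ^ (k * 2 ^ k * lg n ^ k + 1) := by
    rw [pow_succ]
    have := h2.trans (Nat.pow_le_pow_right (by norm_num) h3)
    omega
  have h5 : n ≤ 2 ^ (lg n + 1) := by
    have := lt_two_pow_lg n
    omega
  have h6 : n + 2 * s ≤ 2 ^ ((lg n + 1) + (k * 2 ^ k * lg n ^ k + 1) + 1) :=
    (Nat.add_le_add h5 h4).trans (two_pow_add _ _)
  refine h6.trans (Nat.pow_le_pow_right (by norm_num) ?_)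
  set K := k * 2 ^ k + k + 4 with hK
  have a1 : lg n ^ k ≤ lg n ^ K := lg_pow_le n (by omega)
  have a2 : lg n ≤ lg n ^ K := Nat.le_self_pow (by omega) _
  have a3 : 1 ≤ lg n ^ K := Nat.one_le_pow _ _ (lg_pos n)
  have a4 : k * 2 ^ k * lg n ^ k ≤ k * 2 ^ k * lg n ^ K := Nat.mul_le_mul_left _ a1
  have a5 : K * lg n ^ K = k * 2 ^ k * lg n ^ K + k * lg n ^ K + 4 * lg n ^ K := by
    rw [hK]; ring
  rw [a5]
  have a6 : 0 ≤ k * lg n ^ K := Nat.zero_le _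
  omega

theorem TQC (h1 : TUP_stmt) (h2 : TNP_stmt) (h3 : TGR_stmt) (h4 : TFP_stmt) : TQC_stmt := by
  intro u r
  constructor
  · intro h
    refine ⟨?_, TQC_dbl u r h⟩
    obtain ⟨k, hk⟩ := h (PL u) (h2 u).1 (fun n => TQC_mono (u n) ((h2 u).2 n))
    obtain ⟨c, hc⟩ := h3 u (fun n => 2 ^ r n) k k (fun n => by
      obtain ⟨s, hs, C, o, hC, hF⟩ := hk n
      exact ⟨s, hs, C, o, hC, h4 n s (u n) (r n) C hF⟩)
    refine ⟨c + (4 * k + 1), fun n => (hc n).trans ?_⟩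
    refine Nat.mul_le_mul_right _ (Nat.mul_le_mul (by omega) ?_)
    exact Nat.pow_le_pow_right (lg_pos n) (by omega)
  · rintro ⟨⟨c, hc⟩, h⟩ A hA hm
    obtain ⟨k, hk⟩ := h A hA
    refine ⟨4 * c + k + 24, fun n => ?_⟩
    obtain ⟨s, hs, C, o, hC⟩ := hk n
    have hn : min (u n) n + 1 ≤ (c * lg n ^ c + 1) * 2 ^ r n := by
      have a1 := hc n
      have a2 : 1 ≤ 2 ^ r n := Nat.one_le_two_pow
      rw [add_mul, one_mul]
      omega
    obtain ⟨s', hs', C', o', b1, b2⟩ := h1 n s (u n) (c * lg n ^ c + 1) (r n) C o (A n) hC (hm n)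
      (by omega) hn
    refine ⟨s', hs'.trans ?_, C', o', b1, b2⟩
    set K := 4 * c + k + 24 with hK
    set L := lg n with hL
    have hL1 : 1 ≤ L := lg_pos n
    have hn2 : n + 2 < 2 ^ (L + 1) := lt_two_pow_lg n
    have c1 : 18 ≤ 2 ^ 5 := by norm_num
    have c2 : c * L ^ c + 1 ≤ 2 ^ (c * L ^ c + 1) := Nat.lt_two_pow_self.le
    have c3 : s + 5 * n + 6 ≤ 2 ^ (k * L ^ k + (L + 4) + 1) := by
      refine le_trans ?_ (two_pow_add _ _)
      have e : 2 ^ (L + 4) = 8 * 2 ^ (L + 1) := by ring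
      rw [e]
      omega
    have c4 : (n + n + 2) ^ (c * L ^ c + 1 + 2) ≤ 2 ^ ((L + 2) * (c * L ^ c + 1 + 2)) := by
      rw [pow_mul]
      refine Nat.pow_le_pow_left ?_ _
      have e : 2 ^ (L + 2) = 2 * 2 ^ (L + 1) := by ring
      rw [e]
      omega
    have c5 : n + 1 ≤ 2 ^ (L + 1) := by omega
    have c6 : 18 * (c * L ^ c + 1) * (s + 5 * n + 6) * (n + n + 2) ^ (c * L ^ c + 1 + 2) ≤
        2 ^ (5 + (c * L ^ c + 1) + (k * L ^ k + (L + 4) + 1) + (L + 2) * (c * L ^ c + 1 + 2)) :=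
      (Nat.mul_le_mul (Nat.mul_le_mul (Nat.mul_le_mul c1 c2) c3) c4).trans_eq
        (by rw [← pow_add, ← pow_add, ← pow_add])
    have c7 : 18 * (c * L ^ c + 1) * (s + 5 * n + 6) * (n + n + 2) ^ (c * L ^ c + 1 + 2) + n + 1 ≤
        2 ^ ((5 + (c * L ^ c + 1) + (k * L ^ k + (L + 4) + 1) + (L + 2) * (c * L ^ c + 1 + 2)) +
          (L + 1) + 1) := by
      refine le_trans ?_ (two_pow_add _ _)
      omega
    refine c7.trans (Nat.pow_le_pow_right (by norm_num) ?_)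
    have a1 : L ^ c ≤ L ^ K := Nat.pow_le_pow_right hL1 (by omega)
    have a2 : L ^ k ≤ L ^ K := Nat.pow_le_pow_right hL1 (by omega)
    have a3 : L ^ (c + 1) ≤ L ^ K := Nat.pow_le_pow_right hL1 (by omega)
    have a4 : L ≤ L ^ K := Nat.le_self_pow (by omega) _
    have a5 : 1 ≤ L ^ K := Nat.one_le_pow _ _ hL1
    have e1 : (5 + (c * L ^ c + 1) + (k * L ^ k + (L + 4) + 1) + (L + 2) * (c * L ^ c + 1 + 2)) +
        (L + 1) + 1 = 3 * (c * L ^ c) + k * L ^ k + c * L ^ (c + 1) + 5 * L + 19 := by ring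
    have e2 : K * L ^ K = 4 * (c * L ^ K) + k * L ^ K + 24 * L ^ K := by rw [hK]; ring
    rw [e1, e2]
    have d1 : c * L ^ c ≤ c * L ^ K := Nat.mul_le_mul_left _ a1
    have d2 : k * L ^ k ≤ k * L ^ K := Nat.mul_le_mul_left _ a2
    have d3 : c * L ^ (c + 1) ≤ c * L ^ K := Nat.mul_le_mul_left _ a3
    omega

end Pool.Agent.LN
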